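import Mathlib

namespace Pool.Agent.P.MP_84fce2_co

/-- A `k`-colouring of the Euclidean plane preserved by no isometry except the identity. -/
def Distinguishing {k : ℕ} (c : EuclideanSpace ℝ (Fin 2) → Fin k) : Prop :=
  ∀ γ : EuclideanSpace ℝ (Fin 2) ≃ᵢ EuclideanSpace ℝ (Fin 2), c ∘ γ = c → γ = 1

end Pool.Agent.P.MP_84fce2_co
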