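import Mathlib

namespace Pool.Agent.P.MP_84fce2_co

open Finset Equiv

variable {X : Type*}

/-- `γ` preserves the colouring `c` outside at most `K` points. -/
def Near (c : X → Bool) (K : ℕ) (γ : Perm X) : Prop :=
  ∃ E : Finset X, E.card ≤ K ∧ ∀ x ∉ E, c (γ x) = c x

lemma Near.mono {c : X → Bool} {K L : ℕ} {γ : Perm X} (h : Near c K γ) (hKL : K ≤ L) :
    Near c L γ := by
  obtain ⟨E, hE, h⟩ := h
  exact ⟨E, hE.trans hKL, h⟩

lemma Near.mul {c : X → Bool} {K L : ℕ} {γ δ : Perm X} (h : Near c K γ) (h' : Near c L δ) :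
    Near c (K + L) (γ * δ) := by
  classical
  obtain ⟨E, hE, h⟩ := h
  obtain ⟨F, hF, h'⟩ := h'
  refine ⟨E.image δ.symm ∪ F, (card_union_le _ _).trans (add_le_add (card_image_le.trans hE) hF),
    fun x hx => ?_⟩
  rw [mem_union, not_or] at hx
  rw [Perm.mul_apply, h, h' x hx.2]
  intro hx'
  exact hx.1 (mem_image.2 ⟨_, hx', by simp⟩)

lemma Near.inv {c : X → Bool} {K : ℕ} {γ : Perm X} (h : Near c K γ) : Near c K γ⁻¹ := by
  classical
  obtain ⟨E, hE, h⟩ := h
  refine ⟨E.image γ, card_image_le.trans hE, fun x hx => ?_⟩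
  have := h (γ⁻¹ x) fun hx' => hx (mem_image.2 ⟨_, hx', by simp⟩)
  simpa using this.symm

/-- Two colourings differ in at most `K` points. -/
def Close (c c' : X → Bool) (K : ℕ) : Prop :=
  ∃ E : Finset X, E.card ≤ K ∧ ∀ x ∉ E, c' x = c x

lemma Near.of_close {c c' : X → Bool} {K L : ℕ} {γ : Perm X} (h : Near c K γ)
    (h' : Close c c' L) : Near c' (K + 2 * L) γ := by
  classical
  obtain ⟨E, hE, h⟩ := h
  obtain ⟨F, hF, h'⟩ := h'
  refine ⟨E ∪ (F ∪ F.image γ.symm), ?_, fun x hx => ?_⟩
  · have h1 := card_union_le E (F ∪ F.image γ.symm)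
    have h2 := card_union_le F (F.image γ.symm)
    have h3 : (F.image γ.symm).card ≤ F.card := card_image_le
    omega
  · simp only [mem_union, not_or] at hx
    rw [h' x hx.2.1, h', h x hx.1]
    intro hx'
    exact hx.2.2 (mem_image.2 ⟨_, hx', by simp⟩)

/-- If `b ↦ f b` is injective on `B`, at most `|E|` elements of `B` are sent into `E`. -/
lemma card_filter_mem_le {Y : Type*} [DecidableEq X] (B : Finset Y) (f : Y → X)
    (hf : Set.InjOn f B) (E : Finset X) : (B.filter fun b => f b ∈ E).card ≤ E.card :=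
  card_le_card_of_injOn f (fun _ hb => (mem_filter.1 hb).2)
    (hf.mono fun _ hb => (mem_filter.1 hb).1)

lemma card_bad_le {c : X → Bool} {K : ℕ} {γ : Perm X} (h : Near c K γ) {Y : Type*}
    (B : Finset Y) (f : Y → X) (hf : Set.InjOn f B) :
    (B.filter fun b => c (γ (f b)) ≠ c (f b)).card ≤ K := by
  classical
  obtain ⟨E, hE, h⟩ := h
  refine le_trans (card_le_card fun b hb => ?_) ((card_filter_mem_le B f hf E).trans hE)
  rw [mem_filter] at hb ⊢
  exact ⟨hb.1, by_contra fun hx => hb.2 (h _ hx)⟩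

lemma strong_majority {c : X → Bool} {K : ℕ} (B : Finset (Perm X))
    (hcomm : ∀ b ∈ B, ∀ b' ∈ B, Commute b b') (hnear : ∀ b ∈ B, Near c K b) (x : X)
    (hfree : Set.InjOn (fun b : Perm X => b x) B) :
    (B.filter fun b => c (b x) = true).card ≤ 2 * K ∨
      (B.filter fun b => c (b x) = false).card ≤ 2 * K := by
  classical
  set U := B.filter fun b => c (b x) = true with hU
  set V := B.filter fun b => c (b x) = false with hV
  have hUB : U ⊆ B := filter_subset _ _
  have hVB : V ⊆ B := filter_subset _ _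
  have hsub : U ×ˢ V ⊆
      (V.biUnion fun b' => (U.filter fun b => c (b' (b x)) ≠ c (b x)).image fun b => (b, b')) ∪
      (U.biUnion fun b => (V.filter fun b' => c (b (b' x)) ≠ c (b' x)).image fun b' => (b, b')) := by
    rintro ⟨b, b'⟩ hb
    rw [mem_product] at hb
    obtain ⟨hb, hb'⟩ := hb
    have e : b' (b x) = b (b' x) := by
      have := (hcomm b (hUB hb) b' (hVB hb')).eq
      rw [← Perm.mul_apply, ← this, Perm.mul_apply]
    have h1 := (mem_filter.1 hb).2
    have h2 := (mem_filter.1 hb').2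
    simp only at h1 h2
    rw [mem_union]
    by_cases h : c (b' (b x)) = c (b x)
    · right
      refine mem_biUnion.2 ⟨b, hb, mem_image.2 ⟨b', mem_filter.2 ⟨hb', ?_⟩, rfl⟩⟩
      rw [← e, h, h1, h2]; simp
    · left
      exact mem_biUnion.2 ⟨b', hb', mem_image.2 ⟨b, mem_filter.2 ⟨hb, h⟩, rfl⟩⟩
  have h1 : (V.biUnion fun b' =>
      (U.filter fun b => c (b' (b x)) ≠ c (b x)).image fun b => (b, b')).card ≤ V.card * K :=
    card_biUnion_le_card_mul _ _ _ fun b' hb' => card_image_le.trans
      (card_bad_le (hnear b' (hVB hb')) U (fun b : Perm X => b x) (hfree.mono hUB))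
  have h2 : (U.biUnion fun b =>
      (V.filter fun b' => c (b (b' x)) ≠ c (b' x)).image fun b' => (b, b')).card ≤ U.card * K :=
    card_biUnion_le_card_mul _ _ _ fun b hb => card_image_le.trans
      (card_bad_le (hnear b (hUB hb)) V (fun b : Perm X => b x) (hfree.mono hVB))
  have h3 := (card_le_card hsub).trans (card_union_le _ _)
  rw [card_product] at h3
  by_contra hcon
  push Not at hcon
  nlinarith [hcon.1, hcon.2]

/-- Many commuting almost-symmetries acting freely: a nearby colouring is invariant. -/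
lemma stability {c : X → Bool} {K : ℕ} (B : Finset (Perm X)) (Z : Set X)
    (hcomm : ∀ b ∈ B, ∀ b' ∈ B, Commute b b') (hnear : ∀ b ∈ B, Near c K b)
    (hfree : ∀ x ∉ Z, Set.InjOn (fun b : Perm X => b x) B) (hZ : ∀ b ∈ B, ∀ x ∈ Z, b x = x)
    (hM : 5 * K < B.card) :
    ∃ c' : X → Bool, Close c c' (2 * K) ∧ ∀ b ∈ B, ∀ x, c' (b x) = c' x := by
  classical
  let c' : X → Bool := fun x => decide (2 * K < (B.filter fun b => c (b x) = true).card)
  have hmaj : ∀ x, (B.filter fun b => c (b x) ≠ c' x).card ≤ 2 * K := by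
    intro x
    by_cases hx : x ∈ Z
    · have : (B.filter fun b => c (b x) ≠ c' x) = ∅ := by
        rw [filter_eq_empty_iff]
        intro b hb
        rw [hZ b hb x hx, not_not]
        cases hc : c x
        · have : (B.filter fun b => c (b x) = true) = ∅ := by
            rw [filter_eq_empty_iff]
            intro b hb
            rw [hZ b hb x hx, hc]; simp
          simp [c', this]
        · have : (B.filter fun b => c (b x) = true) = B := by
            rw [filter_eq_self]
            intro b hb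
            rw [hZ b hb x hx, hc]
          have h5 : 2 * K < B.card := by omega
          simp [c', this, h5]
      simp [this]
    · by_cases h : 2 * K < (B.filter fun b => c (b x) = true).card
      · have hc : c' x = true := by simp [c', h]
        rcases strong_majority B hcomm hnear x (hfree x hx) with h' | h'
        · omega
        · simpa [hc] using h'
      · have hc : c' x = false := by simpa [c'] using h
        simpa [hc] using not_lt.1 h
  refine ⟨c', ?_, ?_⟩
  · choose! E hE hE' using hnear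
    have hsub : ∀ x, c' x ≠ c x → B.card - 2 * K ≤ (B.filter fun b => x ∈ E b).card := by
      intro x hx
      have h1 := hmaj x
      have h2 : B ⊆ (B.filter fun b => c (b x) ≠ c' x) ∪ (B.filter fun b => x ∈ E b) := by
        intro b hb
        rw [mem_union, mem_filter, mem_filter]
        by_cases h : x ∈ E b
        · exact Or.inr ⟨hb, h⟩
        · exact Or.inl ⟨hb, by rw [hE' b hb x h]; exact hx.symm⟩
      have h3 := (card_le_card h2).trans (card_union_le _ _)
      omega
    refine ⟨(B.biUnion E).filter fun x => c' x ≠ c x, ?_, ?_⟩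
    · set F := (B.biUnion E).filter fun x => c' x ≠ c x
      have := card_mul_le_card_mul (s := F) (t := B) (fun x b => x ∈ E b) (m := B.card - 2 * K)
        (n := K) (fun x hx => hsub x (mem_filter.1 hx).2) (fun b hb => by
          refine le_trans (card_le_card fun x hx => ?_) (hE b hb)
          exact (mem_filter.1 hx).2)
      obtain ⟨d, hd⟩ : ∃ d, B.card = d + 2 * K := ⟨B.card - 2 * K, by omega⟩
      rw [hd, Nat.add_sub_cancel] at this
      by_contra hcon
      push Not at hcon
      have : 3 * K < d := by omega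
      nlinarith
    · intro x hx
      by_contra h
      have h1 := hsub x h
      have : (B.filter fun b => x ∈ E b).Nonempty := card_pos.1 (by omega)
      obtain ⟨b, hb⟩ := this
      rw [mem_filter] at hb
      exact hx (mem_filter.2 ⟨mem_biUnion.2 ⟨b, hb.1, hb.2⟩, h⟩)
  · intro b₀ hb₀ x
    by_cases hx : x ∈ Z
    · rw [hZ b₀ hb₀ x hx]
    have h1 := hmaj x
    have h2 := hmaj (b₀ x)
    have h3 := card_bad_le (hnear b₀ hb₀) B (fun b : Perm X => b x) (hfree x hx)
    by_contra hcon
    have hsub : B ⊆ (B.filter fun b => c (b x) ≠ c' x) ∪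
        (B.filter fun b => c (b (b₀ x)) ≠ c' (b₀ x)) ∪
        (B.filter fun b => c (b₀ (b x)) ≠ c (b x)) := by
      intro b hb
      have e : b₀ (b x) = b (b₀ x) := by
        have := (hcomm b hb b₀ hb₀).eq
        rw [← Perm.mul_apply, ← this, Perm.mul_apply]
      simp only [mem_union, mem_filter, hb, true_and]
      by_contra h
      push Not at h
      apply hcon
      rw [← h.1.2, ← e, h.2, h.1.1]
    have h4 := (card_le_card hsub).trans (card_union_le _ _)
    have h5 := card_union_le (B.filter fun b => c (b x) ≠ c' x)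
      (B.filter fun b => c (b (b₀ x)) ≠ c' (b₀ x))
    omega

/-- An almost-symmetry normalising the situation is a symmetry. -/
lemma rigidity {c : X → Bool} {K : ℕ} (B : Finset (Perm X)) (Z : Set X) (γ : Perm X)
    (hinv : ∀ b ∈ B, ∀ x, c (b x) = c x)
    (hfree : ∀ x ∉ Z, Set.InjOn (fun b : Perm X => b x) B) (hZ : ∀ b ∈ B, ∀ x ∈ Z, b x = x)
    (hγ : Near c K γ) (hγZ : ∀ x ∈ Z, γ x = x)
    (hcomm : ∀ b ∈ B, ∀ b' ∈ B, Commute b (γ⁻¹ * b' * γ)) (hM : 2 * K < B.card) (x : X) :
    c (γ x) = c x := by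
  classical
  by_cases hx : x ∈ Z
  · rw [hγZ x hx]
  obtain ⟨E, hE, h⟩ := hγ
  have notZ : ∀ δ : Perm X, (∀ y ∈ Z, δ y = y) → ∀ y ∉ Z, δ y ∉ Z := by
    intro δ hδ y hy hy'
    exact hy (δ.injective (hδ _ hy') ▸ hy')
  have hfree' : ∀ y ∉ Z, Set.InjOn (fun b : Perm X => (γ⁻¹ * b * γ) y) B := by
    intro y hy b hb b' hb' e
    exact hfree (γ y) (notZ γ hγZ y hy) hb hb' (by simpa using e)
  obtain ⟨b, hb, hbE⟩ : ∃ b ∈ B, b x ∉ E := by
    by_contra hcon
    push Not at hcon
    have := card_filter_mem_le B (fun b : Perm X => b x) (hfree x hx) E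
    rw [filter_true_of_mem hcon] at this
    omega
  obtain ⟨b', hb', h1, h2⟩ : ∃ b' ∈ B, (γ⁻¹ * b' * γ) x ∉ E ∧ (γ⁻¹ * b' * γ) (b x) ∉ E := by
    by_contra hcon
    push Not at hcon
    have g1 := card_filter_mem_le B _ (hfree' x hx) E
    have g2 := card_filter_mem_le B _ (hfree' (b x) (notZ b (hZ b hb) x hx)) E
    have hsub : B ⊆ (B.filter fun b' => (γ⁻¹ * b' * γ) x ∈ E) ∪
        (B.filter fun b' => (γ⁻¹ * b' * γ) (b x) ∈ E) := by
      intro b' hb'
      rw [mem_union, mem_filter, mem_filter]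
      by_cases h : (γ⁻¹ * b' * γ) x ∈ E
      · exact Or.inl ⟨hb', h⟩
      · exact Or.inr ⟨hb', hcon b' hb' h⟩
    have := (card_le_card hsub).trans (card_union_le _ _)
    omega
  have e : (γ⁻¹ * b' * γ) (b x) = b ((γ⁻¹ * b' * γ) x) := by
    rw [← Perm.mul_apply, ← (hcomm b hb b' hb').eq, Perm.mul_apply]
  have k : ∀ y, c (γ ((γ⁻¹ * b' * γ) y)) = c (γ y) := by
    intro y
    simpa using hinv b' hb' (γ y)
  calc c (γ x) = c (γ ((γ⁻¹ * b' * γ) x)) := (k x).symm
    _ = c ((γ⁻¹ * b' * γ) x) := h _ h1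
    _ = c (b ((γ⁻¹ * b' * γ) x)) := (hinv b hb _).symm
    _ = c ((γ⁻¹ * b' * γ) (b x)) := by rw [e]
    _ = c (γ ((γ⁻¹ * b' * γ) (b x))) := (h _ h2).symm
    _ = c (γ (b x)) := k _
    _ = c (b x) := h _ hbE
    _ = c x := hinv b hb x

lemma exists_free_subset (γ : Perm X) (V : Finset X) (hV : ∀ x ∈ V, γ x ≠ x) (q : ℕ)
    (hq : 3 * q ≤ V.card) : ∃ Q ⊆ V, Q.card = q ∧ ∀ x ∈ Q, γ x ∉ Q := by
  classical
  induction q with
  | zero => exact ⟨∅, empty_subset _, rfl, by simp⟩
  | succ q ih =>
    obtain ⟨Q, hQV, hQ, h⟩ := ih (by omega)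
    have hlt : (Q ∪ Q.image γ ∪ Q.image γ.symm).card < V.card := by
      have h1 := card_union_le (Q ∪ Q.image γ) (Q.image γ.symm)
      have h2 := card_union_le Q (Q.image γ)
      have h3 : (Q.image γ).card ≤ Q.card := card_image_le
      have h4 : (Q.image γ.symm).card ≤ Q.card := card_image_le
      omega
    obtain ⟨y, hyV, hy⟩ := exists_mem_notMem_of_card_lt_card hlt
    simp only [mem_union, not_or] at hy
    refine ⟨insert y Q, insert_subset hyV hQV, by rw [card_insert_of_notMem hy.1.1, hQ], ?_⟩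
    intro x hx hx'
    rcases mem_insert.1 hx with rfl | hx
    · rcases mem_insert.1 hx' with e | e
      · exact hV _ hyV e
      · exact hy.2 (mem_image.2 ⟨_, e, by simp⟩)
    · rcases mem_insert.1 hx' with e | e
      · exact hy.1.2 (mem_image.2 ⟨x, hx, e⟩)
      · exact h x hx e

/-- Union bound: covering all recolourings of `V` needs many permutations. -/
lemma many_symmetries (c : X → Bool) (V : Finset X) (S : Set (Perm X)) (q : ℕ)
    (hq : 3 * q + 2 ≤ V.card)
    (h2 : ∀ γ ∈ S, ∀ P ⊆ V, (∀ x ∈ P, γ x = x) → P.card ≤ 2)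
    (hcov : ∀ c' : X → Bool, (∀ x ∉ V, c' x = c x) → ∃ γ ∈ S, ∀ x, c' (γ x) = c' x) :
    ∃ T : Finset (Perm X), (T : Set (Perm X)) ⊆ S ∧ 2 ^ q ≤ T.card := by
  classical
  let col : Finset X → X → Bool := fun D x => if x ∈ V then decide (x ∈ D) else c x
  choose g hgS hg using fun D : Finset X => hcov (col D) (fun x hx => by simp [col, hx])
  refine ⟨V.powerset.image g, ?_, ?_⟩
  · intro γ hγ
    obtain ⟨D, -, rfl⟩ := mem_image.1 hγ
    exact hgS D
  have key : V.powerset.card ≤ 2 ^ (V.card - q) * (V.powerset.image g).card := by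
    apply card_le_mul_card_image
    intro γ hγ
    obtain ⟨D₀, -, rfl⟩ := mem_image.1 hγ
    set γ := g D₀ with hγdef
    have hfix := h2 γ (hgS D₀) (V.filter fun x => γ x = x) (filter_subset _ _)
      (fun x hx => (mem_filter.1 hx).2)
    have hsplit := card_filter_add_card_filter_not (s := V) (fun x => γ x = x)
    obtain ⟨Q, hQV, hQ, hQγ⟩ := exists_free_subset γ (V.filter fun x => ¬ γ x = x)
      (fun x hx => (mem_filter.1 hx).2) q (by omega)
    have hQV' : Q ⊆ V := hQV.trans (filter_subset _ _)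
    rw [← hQ, ← card_sdiff_of_subset hQV', ← card_powerset]
    apply card_le_card_of_injOn (fun D => D \ Q)
    · intro D hD
      simp only [coe_filter, mem_powerset, Set.mem_ofPred_eq] at hD
      simp only [coe_powerset, Set.mem_preimage, Set.mem_powerset_iff, coe_subset]
      exact sdiff_subset_sdiff hD.1 Subset.rfl
    · intro D hD D' hD' e
      simp only [coe_filter, mem_powerset, Set.mem_ofPred_eq] at hD hD'
      have off : ∀ x ∉ Q, col D x = col D' x := by
        intro x hx
        have : x ∈ D \ Q ↔ x ∈ D' \ Q := by simp only at e; rw [e]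
        simp only [mem_sdiff, hx, not_false_eq_true, and_true] at this
        simp [col, this]
      have all : ∀ x, col D x = col D' x := by
        intro x
        by_cases hx : x ∈ Q
        · rw [← hg D x, ← hg D' x, hD.2, hD'.2]
          exact off _ (hQγ x hx)
        · exact off x hx
      ext x
      by_cases hx : x ∈ V
      · simpa [col, hx] using all x
      · exact ⟨fun h => absurd (hD.1 h) hx, fun h => absurd (hD'.1 h) hx⟩
  rw [card_powerset] at key
  obtain ⟨d, hd⟩ : ∃ d, V.card = d + q := ⟨V.card - q, by omega⟩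
  rw [hd, Nat.add_sub_cancel, pow_add] at key
  exact Nat.le_of_mul_le_mul_left key (by positivity)

end Pool.Agent.P.MP_84fce2_co
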