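import Pool.Agent.P.MP_84fce2_co.Abstract

namespace Pool.Agent.P.MP_84fce2_co

open Finset Equiv ComplexConjugate

/-- `γ z = a z + b`. -/
def IsAff (γ : Perm ℂ) (a b : ℂ) : Prop := ∀ z, γ z = a * z + b

def Pos (γ : Perm ℂ) : Prop := ∃ a b : ℂ, ‖a‖ = 1 ∧ IsAff γ a b

def Neg (γ : Perm ℂ) : Prop := ∃ a b : ℂ, ‖a‖ = 1 ∧ ∀ z, γ z = a * conj z + b

def Iso (γ : Perm ℂ) : Prop := Pos γ ∨ Neg γ

lemma ne_zero_of_norm {a : ℂ} (h : ‖a‖ = 1) : a ≠ 0 := by
  rintro rfl; simp at h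

lemma IsAff.ext {γ δ : Perm ℂ} {a b : ℂ} (h : IsAff γ a b) (h' : IsAff δ a b) : γ = δ := by
  ext z; rw [h z, h' z]

lemma pos_ext {γ δ : Perm ℂ} (h : Pos γ) (h' : Pos δ) {p q : ℂ} (hpq : p ≠ q) (e1 : γ p = δ p)
    (e2 : γ q = δ q) : γ = δ := by
  obtain ⟨a, b, -, h⟩ := h
  obtain ⟨a', b', -, h'⟩ := h'
  rw [h, h'] at e1 e2
  have : (a - a') * (p - q) = 0 := by linear_combination e1 - e2
  have ha : a = a' := sub_eq_zero.1 ((mul_eq_zero.1 this).resolve_right (sub_ne_zero.2 hpq))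
  subst ha
  have hb : b = b' := by linear_combination e1
  subst hb
  exact h.ext h'

lemma neg_ext {γ δ : Perm ℂ} (h : Neg γ) (h' : Neg δ) {p q : ℂ} (hpq : p ≠ q) (e1 : γ p = δ p)
    (e2 : γ q = δ q) : γ = δ := by
  obtain ⟨a, b, -, h⟩ := h
  obtain ⟨a', b', -, h'⟩ := h'
  rw [h, h'] at e1 e2
  have : (a - a') * (conj p - conj q) = 0 := by linear_combination e1 - e2
  have hpq' : conj p - conj q ≠ 0 := sub_ne_zero.2 fun e => hpq (star_injective e)
  have ha : a = a' := sub_eq_zero.1 ((mul_eq_zero.1 this).resolve_right hpq')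
  subst ha
  have hb : b = b' := by linear_combination e1
  subst hb
  ext z; rw [h z, h' z]

lemma pos_one : Pos 1 := ⟨1, 0, by simp, fun z => by simp⟩

lemma two_fixed {γ δ : Perm ℂ} (h : Iso γ) (h' : Iso δ) (h1 : γ ≠ 1) (h1' : δ ≠ 1) {p q : ℂ}
    (hpq : p ≠ q) (a1 : γ p = p) (a2 : γ q = q) (b1 : δ p = p) (b2 : δ q = q) : γ = δ := by
  rcases h with h | h
  · exact absurd (pos_ext h pos_one hpq a1 a2) h1
  rcases h' with h' | h'
  · exact absurd (pos_ext h' pos_one hpq b1 b2) h1'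
  exact neg_ext h h' hpq (a1.trans b1.symm) (a2.trans b2.symm)

lemma card_iso_le (T : Finset (Perm ℂ)) (hT : ∀ γ ∈ T, Iso γ) (Y : Finset ℂ) {p q : ℂ}
    (hpq : p ≠ q) (hp : ∀ γ ∈ T, γ p ∈ Y) (hq : ∀ γ ∈ T, γ q ∈ Y) :
    T.card ≤ 2 * (Y.card * Y.card) := by
  classical
  have key : ∀ U ⊆ T, Set.InjOn (fun γ : Perm ℂ => (γ p, γ q)) U → U.card ≤ Y.card * Y.card := by
    intro U hU hinj
    rw [← card_product]
    exact card_le_card_of_injOn _
      (fun γ hγ => by simpa using ⟨hp γ (hU hγ), hq γ (hU hγ)⟩) hinj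
  have h1 := key (T.filter Pos) (filter_subset _ _) fun γ hγ δ hδ e =>
    pos_ext (mem_filter.1 hγ).2 (mem_filter.1 hδ).2 hpq (Prod.ext_iff.1 e).1 (Prod.ext_iff.1 e).2
  have h2 := key (T.filter fun γ => ¬ Pos γ) (filter_subset _ _) fun γ hγ δ hδ e =>
    neg_ext ((hT γ (mem_filter.1 hγ).1).resolve_left (mem_filter.1 hγ).2)
      ((hT δ (mem_filter.1 hδ).1).resolve_left (mem_filter.1 hδ).2) hpq
      (Prod.ext_iff.1 e).1 (Prod.ext_iff.1 e).2
  have h3 := card_filter_add_card_filter_not (s := T) Pos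
  omega

lemma pos_inv_mul {γ δ : Perm ℂ} (h : Pos γ) (h' : Pos δ) : Pos (γ⁻¹ * δ) := by
  obtain ⟨a, b, ha, h⟩ := h
  obtain ⟨a', b', ha', h'⟩ := h'
  have := ne_zero_of_norm ha
  refine ⟨a' / a, (b' - b) / a, by simp [ha, ha'], fun z => ?_⟩
  rw [Perm.mul_apply, Perm.inv_eq_iff_eq, h, h']
  field_simp
  ring

lemma neg_inv_mul {γ δ : Perm ℂ} (h : Neg γ) (h' : Neg δ) : Pos (γ⁻¹ * δ) := by
  obtain ⟨a, b, ha, h⟩ := h
  obtain ⟨a', b', ha', h'⟩ := h'
  have := ne_zero_of_norm ha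
  refine ⟨conj (a' / a), conj ((b' - b) / a), by simp [ha, ha'], fun z => ?_⟩
  rw [Perm.mul_apply, Perm.inv_eq_iff_eq, h, h']
  simp only [map_add, map_mul, Complex.conj_conj]
  field_simp
  ring

lemma conj_aff {γ g : Perm ℂ} (h : Iso γ) {α β : ℂ} (hg : IsAff g α β) :
    ∃ α' β', (α' = α ∨ α' = conj α) ∧ IsAff (γ⁻¹ * g * γ) α' β' := by
  rcases h with ⟨a, t, ha, h⟩ | ⟨a, t, ha, h⟩
  · have := ne_zero_of_norm ha
    refine ⟨α, (α * t + β - t) / a, Or.inl rfl, fun z => ?_⟩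
    rw [Perm.mul_apply, Perm.mul_apply, Perm.inv_eq_iff_eq, hg, h, h]
    field_simp
    ring
  · have := ne_zero_of_norm ha
    refine ⟨conj α, conj ((α * t + β - t) / a), Or.inr rfl, fun z => ?_⟩
    rw [Perm.mul_apply, Perm.mul_apply, Perm.inv_eq_iff_eq, hg, h, h]
    simp only [map_add, map_mul, Complex.conj_conj]
    field_simp
    ring

lemma commute_tr {g g' : Perm ℂ} {v v' : ℂ} (h : IsAff g 1 v) (h' : IsAff g' 1 v') :
    Commute g g' := by
  ext z
  simp only [Perm.mul_apply, h _, h' _]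
  ring

lemma commute_rot {g g' : Perm ℂ} {a b a' b' o : ℂ} (h : IsAff g a b) (h' : IsAff g' a' b')
    (e : g o = o) (e' : g' o = o) : Commute g g' := by
  ext z
  rw [h] at e
  rw [h'] at e'
  simp only [Perm.mul_apply, h _, h' _]
  linear_combination (1 - a') * e - (1 - a) * e'

lemma inv_app (g : Perm ℂ) (y : ℂ) : g⁻¹ (g y) = y := by simp

lemma commutator_aff {g g' : Perm ℂ} {a b a' b' : ℂ} (h : IsAff g a b) (h' : IsAff g' a' b') :
    IsAff (g * g' * g⁻¹ * g'⁻¹) 1 (a * b' + b - (a' * b + b')) := by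
  intro z
  obtain ⟨y, rfl⟩ := (g' * g).surjective z
  simp only [Perm.mul_apply, inv_app]
  simp only [h _, h' _]
  ring

lemma conj_tr {u τ : Perm ℂ} {a t v : ℂ} (h : IsAff u a t) (h' : IsAff τ 1 v) :
    IsAff (u * τ * u⁻¹) 1 (a * v) := by
  intro z
  obtain ⟨y, rfl⟩ := u.surjective z
  simp only [Perm.mul_apply, inv_app]
  simp only [h _, h' _]
  ring

/-- From many almost-symmetries, many commuting ones. -/
lemma dichotomy (c : ℂ → Bool) (K M : ℕ) (hM : 1 ≤ M) (S : Set (Perm ℂ)) (hS : ∀ γ ∈ S, Iso γ)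
    (hK : ∀ γ ∈ S, Near c K γ) (T : Finset (Perm ℂ)) (hT : (T : Set (Perm ℂ)) ⊆ S)
    (hcard : 2 * (M * M) < T.card) :
    (∃ B : Finset (Perm ℂ), M < B.card ∧ ∀ b ∈ B, (∃ v, IsAff b 1 v) ∧ Near c (20 * K) b) ∨
    (∃ o : ℂ, (∀ γ ∈ S, γ o = o) ∧ ∃ B : Finset (Perm ℂ), M < B.card ∧
      ∀ b ∈ B, (∃ a t, IsAff b a t) ∧ b o = o ∧ Near c (20 * K) b) := by
  classical
  -- a large family of orientation preserving almost-symmetries
  obtain ⟨P, hP, hPc⟩ : ∃ P : Finset (Perm ℂ),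
      (∀ γ ∈ P, Pos γ ∧ Near c (2 * K) γ) ∧ M * M < P.card := by
    have h3 := card_filter_add_card_filter_not (s := T) Pos
    have step : ∀ U ⊆ T, M * M < U.card → (∀ γ ∈ U, ∀ δ ∈ U, Pos (γ⁻¹ * δ)) →
        ∃ P : Finset (Perm ℂ), (∀ γ ∈ P, Pos γ ∧ Near c (2 * K) γ) ∧ M * M < P.card := by
      intro U hU hc hp
      obtain ⟨s, hs⟩ : U.Nonempty := card_pos.1 (by omega)
      refine ⟨U.image fun δ => s⁻¹ * δ, ?_, ?_⟩
      · intro γ hγ
        obtain ⟨δ, hδ, rfl⟩ := mem_image.1 hγ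
        exact ⟨hp s hs δ hδ,
          ((hK s (hT (hU hs))).inv.mul (hK δ (hT (hU hδ)))).mono (by omega)⟩
      · rwa [card_image_of_injective _ (mul_right_injective _)]
    by_cases h : M * M < (T.filter Pos).card
    · exact step _ (filter_subset _ _) h fun γ hγ δ hδ =>
        pos_inv_mul (mem_filter.1 hγ).2 (mem_filter.1 hδ).2
    · exact step (T.filter fun γ => ¬ Pos γ) (filter_subset _ _) (by omega) fun γ hγ δ hδ =>
        neg_inv_mul ((hS γ (hT (mem_filter.1 hγ).1)).resolve_left (mem_filter.1 hγ).2)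
          ((hS δ (hT (mem_filter.1 hδ).1)).resolve_left (mem_filter.1 hδ).2)
  choose! A Bt hA hAff using fun γ (hγ : γ ∈ P) => (hP γ hγ).1
  by_cases hfib : ∃ a ∈ P.image A, M < (P.filter fun γ => A γ = a).card
  · obtain ⟨a, -, ha⟩ := hfib
    left
    obtain ⟨s, hs⟩ : (P.filter fun γ => A γ = a).Nonempty := card_pos.1 (by omega)
    refine ⟨(P.filter fun γ => A γ = a).image fun δ => δ * s⁻¹, ?_, ?_⟩
    · rwa [card_image_of_injective _ (mul_left_injective _)]
    · intro b hb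
      obtain ⟨δ, hδ, rfl⟩ := mem_image.1 hb
      rw [mem_filter] at hs hδ
      refine ⟨⟨Bt δ - Bt s, fun z => ?_⟩,
        ((hP δ hδ.1).2.mul (hP s hs.1).2.inv).mono (by omega)⟩
      obtain ⟨y, rfl⟩ := s.surjective z
      rw [Perm.mul_apply, inv_app, hAff δ hδ.1, hAff s hs.1, hs.2, hδ.2]
      ring
  push Not at hfib
  have himg : M < (P.image A).card := by
    have := card_le_mul_card_image P M hfib
    by_contra hcon
    push Not at hcon
    nlinarith
  -- representatives with distinct linear parts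
  obtain ⟨U, hUP, hUinj, hUc⟩ : ∃ U ⊆ P, Set.InjOn A U ∧ M < U.card := by
    obtain ⟨U, hU, hinj, himage⟩ := exists_subset_injOn_image_eq_of_surjOn (f := A) (P : Set _)
      (P.image A) (by rw [coe_image]; exact Set.surjOn_image _ _)
    refine ⟨U, hU, hinj, ?_⟩
    rwa [← card_image_of_injOn hinj, himage]
  obtain ⟨g, hg, hg1⟩ : ∃ g ∈ U, A g ≠ 1 := by
    by_contra hcon
    push Not at hcon
    have : U.card ≤ 1 := card_le_one.2 fun a ha b hb => hUinj ha hb ((hcon a ha).trans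
      (hcon b hb).symm)
    omega
  have hgP := hUP hg
  have hne : 1 - A g ≠ 0 := sub_ne_zero.2 hg1.symm
  set o := Bt g / (1 - A g) with ho
  have hgo : g o = o := by
    rw [hAff g hgP, ho]
    field_simp
    ring
  by_cases hfix : ∃ h, Iso h ∧ Near c (2 * K) h ∧ h o ≠ o ∧ (h ∈ S ∨ h ∈ U)
  · obtain ⟨h, hiso, hnear, hho, -⟩ := hfix
    left
    obtain ⟨α', β', hα', hg'⟩ := conj_aff hiso (hAff g hgP)
    have hα'1 : 1 - α' ≠ 0 := by
      rcases hα' with rfl | rfl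
      · exact hne
      · intro e
        apply hne
        have := congrArg conj e
        simpa using this
    have ho' : (h⁻¹ * g * h) (h⁻¹ o) = h⁻¹ o := by simp [hgo]
    have hoo : o - h⁻¹ o ≠ 0 := by
      rw [sub_ne_zero]
      intro e
      apply hho
      conv_lhs => rw [e]
      simp
    have ht := commutator_aff (hAff g hgP) hg'
    set τ := g * (h⁻¹ * g * h) * g⁻¹ * (h⁻¹ * g * h)⁻¹
    set v := A g * β' + Bt g - (α' * Bt g + β') with hv
    have hv0 : v ≠ 0 := by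
      rw [hg'] at ho'
      rw [hAff g hgP] at hgo
      have : v = (1 - A g) * (1 - α') * (o - h⁻¹ o) := by
        rw [hv]
        linear_combination (1 - α') * hgo - (1 - A g) * ho'
      rw [this]
      exact mul_ne_zero (mul_ne_zero hne hα'1) hoo
    have ng := (hP g hgP).2
    have ng' : Near c (6 * K) (h⁻¹ * g * h) := ((hnear.inv.mul ng).mul hnear).mono (by omega)
    have nτ : Near c (16 * K) τ := (((ng.mul ng').mul ng.inv).mul ng'.inv).mono (by omega)
    refine ⟨U.image fun u => u * τ * u⁻¹, ?_, ?_⟩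
    · rwa [card_image_of_injOn]
      intro u hu u' hu' e
      have e1 := conj_tr (hAff u (hUP hu)) ht 0
      have e2 := conj_tr (hAff u' (hUP hu')) ht 0
      simp only at e
      rw [e, e2] at e1
      apply hUinj hu hu'
      have : (A u - A u') * v = 0 := by linear_combination -e1
      exact sub_eq_zero.1 ((mul_eq_zero.1 this).resolve_right hv0)
    · intro b hb
      obtain ⟨u, hu, rfl⟩ := mem_image.1 hb
      have nu := (hP u (hUP hu)).2
      exact ⟨⟨_, conj_tr (hAff u (hUP hu)) ht⟩, ((nu.mul nτ).mul nu.inv).mono (by omega)⟩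
  · right
    push Not at hfix
    refine ⟨o, fun γ hγ => ?_, U, hUc, fun b hb => ⟨⟨_, _, hAff b (hUP hb)⟩, ?_,
      (hP b (hUP hb)).2.mono (by omega)⟩⟩
    · by_contra h
      exact (hfix γ (hS γ hγ) ((hK γ hγ).mono (by omega)) h).1 hγ
    · by_contra h
      exact (hfix b (Or.inl (hP b (hUP hb)).1) (hP b (hUP hb)).2 h).2 hb

/-- A colouring close to `c` that is preserved by all of `S`. -/
lemma common_invariant (c : ℂ → Bool) (K : ℕ) (hK1 : 1 ≤ K) (S : Set (Perm ℂ))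
    (hS : ∀ γ ∈ S, Iso γ) (hK : ∀ γ ∈ S, Near c K γ) (T : Finset (Perm ℂ))
    (hT : (T : Set (Perm ℂ)) ⊆ S) (hcard : 2 * (162 * K * (162 * K)) < T.card) :
    ∃ c' : ℂ → Bool, Close c c' (40 * K) ∧ ∀ γ ∈ S, ∀ x, c' (γ x) = c' x := by
  rcases dichotomy c K (162 * K) (by omega) S hS hK T hT hcard with
    ⟨B, hB, h⟩ | ⟨o, ho, B, hB, h⟩
  · have hfree : ∀ x ∉ (∅ : Set ℂ), Set.InjOn (fun b : Perm ℂ => b x) B := by
      intro x _ b hb b' hb' e
      obtain ⟨v, hv⟩ := (h b hb).1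
      obtain ⟨v', hv'⟩ := (h b' hb').1
      simp only at e
      rw [hv, hv'] at e
      have : v = v' := by linear_combination e
      subst this
      exact hv.ext hv'
    obtain ⟨c', hc', hinv⟩ := stability (c := c) (K := 20 * K) B ∅
      (fun b hb b' hb' => by
        obtain ⟨v, hv⟩ := (h b hb).1
        obtain ⟨v', hv'⟩ := (h b' hb').1
        exact commute_tr hv hv') (fun b hb => (h b hb).2) hfree (by simp) (by omega)
    refine ⟨c', by simpa [← mul_assoc] using hc', fun γ hγ => ?_⟩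
    refine rigidity B ∅ γ hinv hfree (by simp) ((hK γ hγ).of_close hc') (by simp) ?_ (by omega)
    intro b hb b' hb'
    obtain ⟨v, hv⟩ := (h b hb).1
    obtain ⟨v', hv'⟩ := (h b' hb').1
    obtain ⟨α, β, hα, hαβ⟩ := conj_aff (hS γ hγ) hv'
    have : α = 1 := by rcases hα with rfl | rfl <;> simp
    subst this
    exact commute_tr hv hαβ
  · have hfree : ∀ x ∉ ({o} : Set ℂ), Set.InjOn (fun b : Perm ℂ => b x) B := by
      intro x hx b hb b' hb' e
      obtain ⟨⟨a, t, hv⟩, h1, -⟩ := h b hb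
      obtain ⟨⟨a', t', hv'⟩, h1', -⟩ := h b' hb'
      simp only at e
      rw [hv] at h1
      rw [hv'] at h1'
      rw [hv, hv'] at e
      have hxo : x - o ≠ 0 := sub_ne_zero.2 hx
      have : (a - a') * (x - o) = 0 := by linear_combination e - h1 + h1'
      have ha : a = a' := sub_eq_zero.1 ((mul_eq_zero.1 this).resolve_right hxo)
      subst ha
      have : t = t' := by linear_combination e
      subst this
      exact hv.ext hv'
    have hZ : ∀ b ∈ B, ∀ x ∈ ({o} : Set ℂ), b x = x := by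
      rintro b hb x rfl
      exact (h b hb).2.1
    obtain ⟨c', hc', hinv⟩ := stability (c := c) (K := 20 * K) B {o}
      (fun b hb b' hb' => by
        obtain ⟨⟨a, t, hv⟩, h1, -⟩ := h b hb
        obtain ⟨⟨a', t', hv'⟩, h1', -⟩ := h b' hb'
        exact commute_rot hv hv' h1 h1') (fun b hb => (h b hb).2.2) hfree hZ (by omega)
    refine ⟨c', by simpa [← mul_assoc] using hc', fun γ hγ => ?_⟩
    refine rigidity B {o} γ hinv hfree hZ ((hK γ hγ).of_close hc') ?_ ?_ (by omega)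
    · rintro x rfl
      exact ho γ hγ
    intro b hb b' hb'
    obtain ⟨⟨a, t, hv⟩, h1, -⟩ := h b hb
    obtain ⟨⟨a', t', hv'⟩, h1', -⟩ := h b' hb'
    obtain ⟨α, β, -, hαβ⟩ := conj_aff (hS γ hγ) hv'
    refine commute_rot hv hαβ h1 ?_
    rw [Perm.mul_apply, Perm.mul_apply, ho γ hγ, h1', Perm.inv_eq_iff_eq, ho γ hγ]

end Pool.Agent.P.MP_84fce2_co
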