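import Pool.Agent.P.MP_84fce2_co.Geometry
import Pool.Agent.P.MP_84fce2_co.Defs

namespace Pool.Agent.P.MP_84fce2_co

open Finset Equiv ComplexConjugate

lemma core (V : Finset ℂ) (hV : V.card = 97) (c : ℂ → Bool)
    (h2 : ∀ γ, Iso γ → γ ≠ 1 → ∀ c' : ℂ → Bool, (∀ x ∉ V, c' x = c x) →
      (∀ x, c' (γ x) = c' x) → ∀ P ⊆ V, (∀ x ∈ P, γ x = x) → P.card ≤ 2) :
    ∃ c' : ℂ → Bool, (∀ x ∉ V, c' x = c x) ∧
      ∀ γ, Iso γ → (∀ x, c' (γ x) = c' x) → γ = 1 := by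
  classical
  by_contra hcon
  push Not at hcon
  let S : Set (Perm ℂ) := {γ | Iso γ ∧ γ ≠ 1 ∧
    ∃ c' : ℂ → Bool, (∀ x ∉ V, c' x = c x) ∧ ∀ x, c' (γ x) = c' x}
  have hS2 : ∀ γ ∈ S, ∀ P ⊆ V, (∀ x ∈ P, γ x = x) → P.card ≤ 2 := by
    rintro γ ⟨h, h1, c', hc', hinv⟩
    exact h2 γ h h1 c' hc' hinv
  have hcov : ∀ c' : ℂ → Bool, (∀ x ∉ V, c' x = c x) → ∃ γ ∈ S, ∀ x, c' (γ x) = c' x := by
    intro c' hc'
    obtain ⟨γ, h, hinv, h1⟩ := hcon c' hc'
    exact ⟨γ, ⟨h, h1, c', hc', hinv⟩, hinv⟩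
  have hnear : ∀ γ ∈ S, Near c 194 γ := by
    rintro γ ⟨-, -, c', hc', hinv⟩
    have h0 : Near c' 0 γ := ⟨∅, by simp, fun x _ => hinv x⟩
    exact h0.of_close (L := 97) ⟨V, hV.le, fun x hx => (hc' x hx).symm⟩
  obtain ⟨T, hT, hTc⟩ := many_symmetries c V S 31 (by omega) hS2 hcov
  obtain ⟨d, ⟨E, hE, hd⟩, hdinv⟩ := common_invariant c 194 (by norm_num) S (fun γ hγ => hγ.1)
    hnear T hT (lt_of_lt_of_le (by norm_num) hTc)
  obtain ⟨p, hp, q, hq, hpq⟩ := one_lt_card.1 (show 1 < V.card by omega)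
  let c₁ : ℂ → Bool := fun x => if x = p ∨ x = q then !d x else c x
  have hV' : (V \ {p, q}).card = 95 := by
    rw [card_sdiff_of_subset (by simp [insert_subset_iff, hp, hq]), card_pair hpq, hV]
  obtain ⟨T', hT', hT'c⟩ := many_symmetries c₁ (V \ {p, q})
    {γ | γ ∈ S ∧ γ p ∈ E ∪ V ∧ γ q ∈ E ∪ V} 31 (by omega)
    (fun γ hγ P hP => hS2 γ hγ.1 P (hP.trans sdiff_subset)) (by
      intro c' hc'
      have hc'' : ∀ x ∉ V, c' x = c x := by
        intro x hx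
        rw [hc' x (fun h => hx (mem_sdiff.1 h).1)]
        have : ¬ (x = p ∨ x = q) := by
          rintro (rfl | rfl)
          · exact hx hp
          · exact hx hq
        simp [c₁, this]
      obtain ⟨γ, hγ, hinv⟩ := hcov c' hc''
      have key : ∀ w, w = p ∨ w = q → γ w ∈ E ∪ V := by
        intro w hw
        by_contra h
        rw [mem_union, not_or] at h
        have e1 : c' w = !d w := by
          rw [hc' w (by rcases hw with rfl | rfl <;> simp)]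
          simp [c₁, hw]
        have e2 : c' (γ w) = d (γ w) := by rw [hc'' _ h.2, hd _ h.1]
        rw [hinv, hdinv γ hγ, e1] at e2
        simp at e2
      exact ⟨γ, ⟨hγ, key p (Or.inl rfl), key q (Or.inr rfl)⟩, hinv⟩)
  have h1 := card_iso_le T' (fun γ hγ => (hT' hγ).1.1) (E ∪ V) hpq
    (fun γ hγ => (hT' hγ).2.1) (fun γ hγ => (hT' hγ).2.2)
  have h3 : (E ∪ V).card ≤ 7857 := (card_union_le _ _).trans (by omega)
  have h4 : (E ∪ V).card * (E ∪ V).card ≤ 7857 * 7857 := Nat.mul_le_mul h3 h3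
  norm_num at hT'c
  omega

lemma general_position (n : ℕ) (F : Finset ℂ) (hF : n + n * n * n ≤ F.card)
    (h : ∀ γ, Iso γ → γ ≠ 1 → ∀ P ⊆ F, (∀ x ∈ P, γ x = x) → P.card < n) (j : ℕ) (hj : j ≤ n) :
    ∃ V ⊆ F, V.card = j ∧
      ∀ γ, Iso γ → γ ≠ 1 → ∀ P ⊆ V, (∀ x ∈ P, γ x = x) → P.card ≤ 2 := by
  classical
  induction j with
  | zero =>
    refine ⟨∅, empty_subset _, rfl, fun γ _ _ P hP _ => ?_⟩
    simp [subset_empty.1 hP]
  | succ j ih =>
    obtain ⟨V, hVF, hV, hgen⟩ := ih (by omega)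
    let L : ℂ × ℂ → Finset ℂ := fun pq => F.filter fun w =>
      pq.1 ≠ pq.2 ∧ ∃ γ, Iso γ ∧ γ ≠ 1 ∧ γ pq.1 = pq.1 ∧ γ pq.2 = pq.2 ∧ γ w = w
    have hL : ∀ pq, (L pq).card ≤ n := by
      intro pq
      rcases (L pq).eq_empty_or_nonempty with e | ⟨w, hw⟩
      · simp [e]
      · obtain ⟨hne, γ, h1, h2, h3, h4, -⟩ := (mem_filter.1 hw).2
        refine (h γ h1 h2 _ (filter_subset _ _) fun x hx => ?_).le
        obtain ⟨-, δ, k1, k2, k3, k4, k5⟩ := (mem_filter.1 hx).2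
        rw [two_fixed h1 k1 h2 k2 hne h3 h4 k3 k4, k5]
    have hbad : (V ∪ (V ×ˢ V).biUnion L).card < F.card := by
      have h1 := card_union_le V ((V ×ˢ V).biUnion L)
      have h2 := card_biUnion_le_card_mul (V ×ˢ V) L n fun pq _ => hL pq
      rw [card_product, hV] at h2
      have h3 : j * j * n ≤ n * n * n :=
        Nat.mul_le_mul_right _ (Nat.mul_le_mul (by omega) (by omega))
      omega
    obtain ⟨y, hyF, hy⟩ := exists_mem_notMem_of_card_lt_card hbad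
    rw [mem_union, not_or] at hy
    refine ⟨insert y V, insert_subset hyF hVF, by rw [card_insert_of_notMem hy.1, hV], ?_⟩
    intro γ h1 h2 P hP hfix
    by_cases hyP : y ∈ P
    · by_contra hc
      have hc' : 1 < (P.erase y).card := by rw [card_erase_of_mem hyP]; omega
      obtain ⟨p, hp, q, hq, hpq⟩ := one_lt_card.1 hc'
      rw [mem_erase] at hp hq
      apply hy.2
      refine mem_biUnion.2 ⟨(p, q), mem_product.2 ⟨(mem_insert.1 (hP hp.2)).resolve_left hp.1,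
        (mem_insert.1 (hP hq.2)).resolve_left hq.1⟩, mem_filter.2 ⟨hyF, hpq, γ, h1, h2,
          hfix p hp.2, hfix q hq.2, hfix y hyP⟩⟩
    · exact hgen γ h1 h2 P ((subset_insert_iff_of_notMem hyP).1 hP) hfix

lemma complex_main (W : Set ℂ) (hW : ((912770 : ℕ) : ℕ∞) ≤ W.encard)
    (hstab : ∀ γ, Iso γ → (∀ w ∈ W, γ w = w) → γ = 1) (c : ℂ → Bool) :
    ∃ c' : ℂ → Bool, (∀ x ∉ W, c' x = c x) ∧
      ∀ γ, Iso γ → (∀ x, c' (γ x) = c' x) → γ = 1 := by
  classical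
  obtain ⟨F₀, hF₀W, hF₀⟩ := Set.exists_subset_encard_eq hW
  have hfin : F₀.Finite := Set.finite_of_encard_eq_coe hF₀
  set F := hfin.toFinset with hFdef
  have hFW : ∀ x ∈ F, x ∈ W := fun x hx => hF₀W (hfin.mem_toFinset.1 hx)
  have hF : F.card = 912770 := by
    have := hfin.encard_eq_coe_toFinset_card
    rw [hF₀] at this
    exact_mod_cast this.symm
  by_cases h : ∀ γ, Iso γ → γ ≠ 1 → ∀ P ⊆ F, (∀ x ∈ P, γ x = x) → P.card < 97
  · obtain ⟨V, hVF, hV, hgen⟩ := general_position 97 F (by omega) h 97 le_rfl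
    obtain ⟨c', hc', hd⟩ := core V hV c fun γ h1 h2 _ _ _ => hgen γ h1 h2
    exact ⟨c', fun x hx => hc' x fun hxV => hx (hFW x (hVF hxV)), hd⟩
  · push Not at h
    obtain ⟨r, hr, hr1, P, hPF, hPfix, hP⟩ := h
    obtain ⟨V, hVP, hV⟩ := exists_subset_card_eq hP
    obtain ⟨w, hwW, hw⟩ : ∃ w ∈ W, r w ≠ w := by
      by_contra hcon
      push Not at hcon
      exact hr1 (hstab r hr hcon)
    let c₁ : ℂ → Bool := fun x => if x = w then !c (r w) else c x
    have hwV : w ∉ V := fun h => hw (hPfix w (hVP h))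
    have hrwV : r w ∉ V := fun h => hw (r.injective (hPfix _ (hVP h)))
    obtain ⟨c', hc', hd⟩ := core V hV c₁ (by
      intro γ h1 h2 c' hc' hinv Q hQ hfix
      by_contra hc
      obtain ⟨p, hp, q, hq, hpq⟩ := one_lt_card.1 (show 1 < Q.card by omega)
      have e := two_fixed h1 hr h2 hr1 hpq (hfix p hp) (hfix q hq) (hPfix p (hVP (hQ hp)))
        (hPfix q (hVP (hQ hq)))
      have := hinv w
      rw [e, hc' _ hrwV, hc' _ hwV] at this
      simp [c₁, hw] at this)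
    refine ⟨c', fun x hx => ?_, hd⟩
    rw [hc' x fun hxV => hx (hFW x (hPF (hVP hxV)))]
    have : x ≠ w := fun e => hx (e ▸ hwW)
    simp [c₁, this]

lemma iso_of_isometry (γ : ℂ ≃ᵢ ℂ) : Iso γ.toEquiv := by
  obtain ⟨a, ha | ha⟩ := linear_isometry_complex γ.toRealLinearIsometryEquiv
  · refine Or.inl ⟨a, γ 0, by simp, fun z => ?_⟩
    have := congrArg (fun f : ℂ ≃ₗᵢ[ℝ] ℂ => f z) ha
    simp only [IsometryEquiv.toRealLinearIsometryEquiv_apply, rotation_apply] at this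
    change γ z = _
    linear_combination this
  · refine Or.inr ⟨a, γ 0, by simp, fun z => ?_⟩
    have := congrArg (fun f : ℂ ≃ₗᵢ[ℝ] ℂ => f z) ha
    simp only [IsometryEquiv.toRealLinearIsometryEquiv_apply, LinearIsometryEquiv.trans_apply,
      Complex.conjLIE_apply, rotation_apply] at this
    change γ z = _
    linear_combination this

lemma isometry_of_iso {γ : Perm ℂ} (h : Iso γ) : Isometry γ := by
  refine Isometry.of_dist_eq fun x y => ?_
  rcases h with ⟨a, b, ha, h⟩ | ⟨a, b, ha, h⟩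
  · rw [h, h, dist_add_right, dist_eq_norm, dist_eq_norm, ← mul_sub, norm_mul, ha, one_mul]
  · rw [h, h, dist_add_right, dist_eq_norm, dist_eq_norm, ← mul_sub, norm_mul, ha, one_mul,
      ← map_sub, Complex.norm_conj]

lemma plane_main (W : Set (EuclideanSpace ℝ (Fin 2))) (hW : ((912770 : ℕ) : ℕ∞) ≤ W.encard)
    (hstab : ∀ γ : EuclideanSpace ℝ (Fin 2) ≃ᵢ EuclideanSpace ℝ (Fin 2),
      (∀ w ∈ W, γ w = w) → γ = 1) (c : EuclideanSpace ℝ (Fin 2) → Fin 2) :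
    ∃ c' : EuclideanSpace ℝ (Fin 2) → Fin 2, (∀ x ∉ W, c' x = c x) ∧ Distinguishing c' := by
  let φ : ℂ ≃ᵢ EuclideanSpace ℝ (Fin 2) := Complex.orthonormalBasisOneI.repr.toIsometryEquiv
  obtain ⟨c', hc', hd⟩ := complex_main (φ ⁻¹' W)
    (by rwa [Set.encard_preimage_of_bijective φ.bijective]) (by
      intro γ hγ hfix
      have := hstab (φ.symm.trans ((IsometryEquiv.mk γ (isometry_of_iso hγ)).trans φ)) (by
        intro w hw
        change φ (γ (φ.symm w)) = w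
        rw [hfix _ (by simpa using hw)]
        simp)
      ext z
      have h := congrArg (fun f : EuclideanSpace ℝ (Fin 2) ≃ᵢ EuclideanSpace ℝ (Fin 2) =>
        f (φ z)) this
      change φ (γ (φ.symm (φ z))) = φ z at h
      simpa using h) (fun z => finTwoEquiv (c (φ z)))
  refine ⟨fun x => finTwoEquiv.symm (c' (φ.symm x)), fun x hx => ?_, fun γ hγ => ?_⟩
  · simp only
    rw [hc' _ (by simpa using hx)]
    simp
  · have := hd (φ.trans (γ.trans φ.symm)).toEquiv (iso_of_isometry _) (by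
      intro z
      have h := congrFun hγ (φ z)
      simpa using h)
    ext x : 1
    have h := congrArg (fun f : Perm ℂ => φ (f (φ.symm x))) this
    simpa using h

theorem main : ∃ k : ℕ,
    IsLeast {k : ℕ | ∃ c : EuclideanSpace ℝ (Fin 2) → Fin k, Distinguishing c} k ∧
    ∃ n : ℕ, ∀ W : Set (EuclideanSpace ℝ (Fin 2)), (n : ℕ∞) ≤ W.encard →
      (∀ γ : EuclideanSpace ℝ (Fin 2) ≃ᵢ EuclideanSpace ℝ (Fin 2), (∀ w ∈ W, γ w = w) → γ = 1) →
      ∀ c₀ : (Wᶜ : Set (EuclideanSpace ℝ (Fin 2))) → Fin k,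
        ∃ c : EuclideanSpace ℝ (Fin 2) → Fin k,
          (∀ x : (Wᶜ : Set (EuclideanSpace ℝ (Fin 2))), c x = c₀ x) ∧ Distinguishing c := by
  classical
  refine ⟨2, ⟨?_, ?_⟩, 912770, fun W hW hstab c₀ => ?_⟩
  · obtain ⟨c, -, hc⟩ := plane_main Set.univ (by simp [Set.encard_univ])
      (fun γ h => IsometryEquiv.ext fun x => h x trivial) (fun _ => 0)
    exact ⟨c, hc⟩
  · rintro k ⟨c, hc⟩
    by_contra hk
    have hk' : k ≤ 1 := by omega
    have : Subsingleton (Fin k) := Fin.subsingleton_iff_le_one.2 hk'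
    have := hc (IsometryEquiv.addRight (EuclideanSpace.single 0 1)) (Subsingleton.elim _ _)
    have h := congrArg (fun f : EuclideanSpace ℝ (Fin 2) ≃ᵢ EuclideanSpace ℝ (Fin 2) =>
      f 0 0) this
    simp at h
  · obtain ⟨c, hc, hd⟩ := plane_main W hW hstab fun x => if h : x ∈ W then 0 else c₀ ⟨x, h⟩
    refine ⟨c, fun x => ?_, hd⟩
    have hx : (x : EuclideanSpace ℝ (Fin 2)) ∉ W := x.2
    rw [hc x hx, dif_neg hx]

end Pool.Agent.P.MP_84fce2_co
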