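import Pool.Agent.P.MP_84fce2_co.Main

namespace Pool.Agent.P.MP_84fce2_co.VariantFinite

open Pool.Agent.P.MP_84fce2_co

theorem result : ∃ k : ℕ,
    IsLeast {k : ℕ | ∃ c : EuclideanSpace ℝ (Fin 2) → Fin k, Distinguishing c} k ∧
    ∃ n : ℕ, ∀ W : Set (EuclideanSpace ℝ (Fin 2)), (n : ℕ∞) ≤ W.encard →
      (∀ γ : EuclideanSpace ℝ (Fin 2) ≃ᵢ EuclideanSpace ℝ (Fin 2), (∀ w ∈ W, γ w = w) → γ = 1) →
      ∀ c₀ : (Wᶜ : Set (EuclideanSpace ℝ (Fin 2))) → Fin k,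
        ∃ c : EuclideanSpace ℝ (Fin 2) → Fin k,
          (∀ x : (Wᶜ : Set (EuclideanSpace ℝ (Fin 2))), c x = c₀ x) ∧ Distinguishing c :=
  Pool.Agent.P.MP_84fce2_co.main

end Pool.Agent.P.MP_84fce2_co.VariantFinite
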